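import Pool.Agent.MP_3a00c0_gt.Jac

/-! Isometric actions of a vector group, read in the charts of an atlas. -/

open Set Metric Filter Topology
open scoped ContDiff RealInnerProductSpace

set_option maxSynthPendingDepth 3
set_option linter.unusedSectionVars false

namespace Pool.Agent.MP_3a00c0_gt

open Pool.Agent.MP_3fed84_gt

variable {E : Type} [NormedAddCommGroup E] [InnerProductSpace ℝ E] [FiniteDimensional ℝ E]
  {M : Type} [TopologicalSpace M]

/-- A continuous action of the vector group V by isometries. -/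
structure PreAct (𝒜 : Atlas E M) (V : Type) [NormedAddCommGroup V] where
  Φ : V → M → M
  zero : ∀ m, Φ 0 m = m
  add : ∀ a b m, Φ (a + b) m = Φ a (Φ b m)
  cont : Continuous fun p : V × M => Φ p.1 p.2
  iso : ∀ a m, LI0 𝒜 𝒜 (Φ a) m

/-- The action together with its Killing fields ev and their covariant derivatives A. -/
structure Act (𝒜 : Atlas E M) (V : Type) [NormedAddCommGroup V] [NormedSpace ℝ V]
    extends PreAct 𝒜 V where
  ev : Chart E M → E → V →L[ℝ] E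
  A : Chart E M → E → V →L[ℝ] E →L[ℝ] E
  sm_ev : ∀ c ∈ 𝒜.S, ContDiffOn ℝ ∞ (ev c) c.ψ.target
  sm_A : ∀ c ∈ 𝒜.S, ContDiffOn ℝ ∞ (A c) c.ψ.target
  d_ev : ∀ c ∈ 𝒜.S, ∀ y ∈ c.ψ.target, ∀ ξ U,
    fderiv ℝ (ev c) y ξ U = A c y U ξ - c.Γ y ξ (ev c y U)
  d_A : ∀ c ∈ 𝒜.S, ∀ y ∈ c.ψ.target, ∀ ξ U η, fderiv ℝ (A c) y ξ U η
    = Rm c.Γ y ξ (ev c y U) η - c.Γ y ξ (A c y U η) + A c y U (c.Γ y ξ η)
  skew : ∀ c ∈ 𝒜.S, ∀ y ∈ c.ψ.target, ∀ U a b,
    c.G y (A c y U a) b = -c.G y a (A c y U b)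
  comm : ∀ c ∈ 𝒜.S, ∀ y ∈ c.ψ.target, ∀ U W, A c y U (ev c y W) = A c y W (ev c y U)
  tr_ev : ∀ c ∈ 𝒜.S, ∀ c' ∈ 𝒜.S, ∀ a, ∀ m ∈ c.ψ.source, Φ a m ∈ c'.ψ.source → ∀ U,
    ev c' (c'.ψ (Φ a m)) U = fderiv ℝ (c.ex c' (Φ a)) (c.ψ m) (ev c (c.ψ m) U)
  tr_A : ∀ c ∈ 𝒜.S, ∀ c' ∈ 𝒜.S, ∀ a, ∀ m ∈ c.ψ.source, Φ a m ∈ c'.ψ.source → ∀ U ξ,
    A c' (c'.ψ (Φ a m)) U (fderiv ℝ (c.ex c' (Φ a)) (c.ψ m) ξ)
      = fderiv ℝ (c.ex c' (Φ a)) (c.ψ m) (A c (c.ψ m) U ξ)
  orbit : ∀ c ∈ 𝒜.S, ∀ m U (s : ℝ), Φ (s • U) m ∈ c.ψ.source →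
    HasDerivAt (fun r : ℝ => c.ψ (Φ (r • U) m)) (ev c (c.ψ (Φ (s • U) m)) U) s

variable {𝒜 : Atlas E M} {V : Type} [NormedAddCommGroup V] [NormedSpace ℝ V]
  [FiniteDimensional ℝ V]

/-- The set where the Killing field U is parallel. -/
def Act.P (α : Act 𝒜 V) (U : V) : Set M :=
  {m | ∀ c ∈ 𝒜.S, m ∈ c.ψ.source → α.A c (c.ψ m) U = 0}

/-- The set of points near which U is parallel. -/
def Act.Om (α : Act 𝒜 V) (U : V) : Set M := interior (α.P U)

/-- The squared length of the Killing field U in the chart c. -/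
noncomputable def Act.F (α : Act 𝒜 V) (c : Chart E M) (U : V) (y : E) : ℝ :=
  c.G y (α.ev c y U) (α.ev c y U)

/-- The squared length of the Killing field U. -/
noncomputable def Act.f (α : Act 𝒜 V) (U : V) (m : M) : ℝ :=
  α.F (𝒜.norm m).choose U ((𝒜.norm m).choose.ψ m)

theorem Act.Φ_zero (α : Act 𝒜 V) : α.Φ 0 = id := funext α.zero

theorem act_A_zero (α : Act 𝒜 V) {c c' : Chart E M} (hc : c ∈ 𝒜.S) (hc' : c' ∈ 𝒜.S) (a : V)
    {m : M} (hm : m ∈ c.ψ.source) (hm' : α.Φ a m ∈ c'.ψ.source) {U : V}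
    (h : α.A c (c.ψ m) U = 0) : α.A c' (c'.ψ (α.Φ a m)) U = 0 := by
  have hi := ((α.iso a m).2 c hc c' hc' hm hm').2
  refine ContinuousLinearMap.ext fun η => ?_
  obtain ⟨ξ, rfl⟩ := IsoAt.surj c.chr (c.ψ.map_source hm) hi η
  rw [α.tr_A c hc c' hc' a m hm hm' U ξ, h]
  simp

theorem act_diff_ev (α : Act 𝒜 V) {c : Chart E M} (hc : c ∈ 𝒜.S) {y : E}
    (hy : y ∈ c.ψ.target) : HasFDerivAt (α.ev c) (fderiv ℝ (α.ev c) y) y :=
  (((α.sm_ev c hc).contDiffAt (c.ψ.open_target.mem_nhds hy)).differentiableAt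
    (by simp)).hasFDerivAt

theorem act_diff_A (α : Act 𝒜 V) {c : Chart E M} (hc : c ∈ 𝒜.S) {y : E}
    (hy : y ∈ c.ψ.target) : HasFDerivAt (α.A c) (fderiv ℝ (α.A c) y) y :=
  (((α.sm_A c hc).contDiffAt (c.ψ.open_target.mem_nhds hy)).differentiableAt
    (by simp)).hasFDerivAt

/- tr_A with a = 0 (Φ_zero) and surjectivity of the differential of the transition map
(IsoAt.surj, 𝒜.compat). -/
theorem Act.mem_P (α : Act 𝒜 V) {c : Chart E M} (hc : c ∈ 𝒜.S) {m : M} (hm : m ∈ c.ψ.source)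
    (U : V) : m ∈ α.P U ↔ α.A c (c.ψ m) U = 0 := by
  refine ⟨fun h => h c hc hm, fun h c' hc' hm' => ?_⟩
  have h0 : α.Φ 0 m = m := α.zero m
  have := act_A_zero α hc hc' 0 hm (h0.symm ▸ hm') h
  rwa [h0] at this

theorem Act.isClosed_P (α : Act 𝒜 V) (U : V) : IsClosed (α.P U) := by
  rw [← isOpen_compl_iff, isOpen_iff_mem_nhds]
  intro m hm
  obtain ⟨c, hc, hmc, -⟩ := 𝒜.norm m
  have h1 : α.A c (c.ψ m) U ≠ 0 := fun h => hm ((α.mem_P hc hmc U).2 h)
  have h2 : ContinuousAt (fun m' => α.A c (c.ψ m') U) m :=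
    (ContinuousAt.comp (act_diff_A α hc (c.ψ.map_source hmc)).continuousAt
      (c.ψ.continuousAt hmc)).clm_apply continuousAt_const
  filter_upwards [h2.eventually_ne h1, c.ψ.open_source.mem_nhds hmc] with m' k1 k2
  exact fun h => k1 (h c hc k2)

/- tr_A. -/
theorem Act.Φ_mem_P (α : Act 𝒜 V) (a : V) {U : V} {m : M} (hm : m ∈ α.P U) :
    α.Φ a m ∈ α.P U := by
  intro c' hc' hm'
  obtain ⟨c, hc, hmc, -⟩ := 𝒜.norm m
  exact act_A_zero α hc hc' a hmc hm' (hm c hc hmc)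

/- Φ a is continuous with continuous inverse Φ (-a). -/
theorem Act.Φ_mem_Om (α : Act 𝒜 V) (a : V) {U : V} {m : M} (hm : m ∈ α.Om U) :
    α.Φ a m ∈ α.Om U := by
  have hinv : ∀ b x, α.Φ (-b) (α.Φ b x) = x := fun b x => by
    rw [← α.add, neg_add_cancel, α.zero]
  have hc : Continuous (α.Φ (-a)) := α.cont.comp (Continuous.prodMk_right (-a))
  rw [Act.Om, mem_interior_iff_mem_nhds] at hm ⊢
  have h1 : α.P U ∈ 𝓝 (α.Φ (-a) (α.Φ a m)) := by rwa [hinv]
  filter_upwards [hc.continuousAt.preimage_mem_nhds h1] with x hx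
  have h2 := α.Φ_mem_P a hx
  have h3 := hinv (-a) x
  rw [neg_neg] at h3
  rwa [h3] at h2

/-- The fields that are parallel near m. -/
def Act.Z (α : Act 𝒜 V) (m : M) : Submodule ℝ V where
  carrier := {U | m ∈ α.Om U}
  zero_mem' := by
    have : α.P 0 = univ := eq_univ_of_forall fun x c _ _ => map_zero _
    change m ∈ interior (α.P 0)
    rw [this, interior_univ]
    exact mem_univ m
  add_mem' := by
    intro U W hU hW
    change m ∈ interior _ at hU hW ⊢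
    rw [mem_interior_iff_mem_nhds] at hU hW ⊢
    filter_upwards [hU, hW] with x h1 h2 c hc hx
    rw [map_add, h1 c hc hx, h2 c hc hx, add_zero]
  smul_mem' := by
    intro r U hU
    change m ∈ interior _ at hU ⊢
    rw [mem_interior_iff_mem_nhds] at hU ⊢
    filter_upwards [hU] with x h1 c hc hx
    rw [map_smul, h1 c hc hx, smul_zero]

theorem Act.mem_Z (α : Act 𝒜 V) {m : M} {U : V} : U ∈ α.Z m ↔ m ∈ α.Om U := Iff.rfl

/- tr_ev with a = 0 and the isometry property of the transition map. -/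
theorem Act.f_eq (α : Act 𝒜 V) {c : Chart E M} (hc : c ∈ 𝒜.S) {m : M} (hm : m ∈ c.ψ.source)
    (U : V) : α.f U m = α.F c U (c.ψ m) := by
  obtain ⟨hc', hm', -⟩ := (𝒜.norm m).choose_spec
  unfold Act.f
  set c' := (𝒜.norm m).choose
  have h0 : α.Φ 0 m = m := α.zero m
  have hm0 : α.Φ 0 m ∈ c'.ψ.source := h0.symm ▸ hm'
  have hi := ((α.iso 0 m).2 c hc c' hc' hm hm0).2 (α.ev c (c.ψ m) U) (α.ev c (c.ψ m) U)
  have ht := α.tr_ev c hc c' hc' 0 m hm hm0 U
  rw [c.ex_apply c' _ hm, ← ht, h0] at hi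
  exact hi

theorem Act.continuous_f (α : Act 𝒜 V) (U : V) : Continuous (α.f U) := by
  rw [continuous_iff_continuousAt]
  intro m
  obtain ⟨c, hc, hmc, -⟩ := 𝒜.norm m
  have hy := c.ψ.map_source hmc
  have h1 : ContinuousAt (fun y => α.ev c y U) (c.ψ m) :=
    (act_diff_ev α hc hy).continuousAt.clm_apply continuousAt_const
  have h2 : ContinuousAt (α.F c U) (c.ψ m) :=
    ((c.chr.diffG hy).continuousAt.clm_apply h1).clm_apply h1
  refine (ContinuousAt.comp h2 (c.ψ.continuousAt hmc)).congr ?_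
  filter_upwards [c.ψ.open_source.mem_nhds hmc] with x hx
  exact (α.f_eq hc hx U).symm

/- d_ev and compat; the derivative in the direction ξ is 2 G (A U ξ) (ev U). -/
theorem Act.hasFDerivAt_F (α : Act 𝒜 V) {c : Chart E M} (hc : c ∈ 𝒜.S) {y : E}
    (hy : y ∈ c.ψ.target) (U : V) : ∃ L : E →L[ℝ] ℝ, HasFDerivAt (α.F c U) L y ∧
      ∀ ξ, L ξ = 2 * c.G y (α.A c y U ξ) (α.ev c y U) := by
  have h1 := (act_diff_ev α hc hy).clm_apply (hasFDerivAt_const U y)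
  refine ⟨_, ((c.chr.diffG hy).hasFDerivAt.clm_apply h1).clm_apply h1, fun ξ => ?_⟩
  simp only [add_apply, ContinuousLinearMap.comp_apply, ContinuousLinearMap.flip_apply,
    zero_apply, map_zero, zero_add]
  rw [α.d_ev c hc y hy, c.chr.compat y hy, c.chr.symm y hy (α.ev c y U) (_ - _),
    c.chr.symm y hy (α.ev c y U) (c.Γ y ξ _)]
  simp only [map_sub, sub_apply]
  ring

/- A Killing field is a Jacobi field along every geodesic: chain rule with d_ev and d_A. -/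
theorem Act.jacAt (α : Act 𝒜 V) {c : Chart E M} (hc : c ∈ 𝒜.S) {y u : ℝ → E} {t : ℝ}
    (hy : y t ∈ c.ψ.target) (dy : HasDerivAt y (u t) t)
    (du : HasDerivAt u (-(c.Γ (y t) (u t) (u t))) t) (U : V) :
    JacAt c.Γ y u (fun s => α.ev c (y s) U) (fun s => α.A c (y s) U (u s)) t := by
  refine ⟨dy, du, ?_, ?_⟩
  · have h1 := ((act_diff_ev α hc hy).comp_hasDerivAt t dy).clm_apply (hasDerivAt_const t U)
    refine h1.congr_deriv ?_
    rw [α.d_ev c hc _ hy]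
    simp
  · have h1 := (((act_diff_A α hc hy).comp_hasDerivAt t dy).clm_apply
      (hasDerivAt_const t U)).clm_apply du
    refine h1.congr_deriv ?_
    simp only [map_zero, add_zero, Function.comp_apply, map_neg]
    rw [α.d_A c hc _ hy]
    abel

/- The derivative of z ↦ A z U (ev z W) at y in the direction ξ. -/
theorem Act.d_A_ev (α : Act 𝒜 V) {c : Chart E M} (hc : c ∈ 𝒜.S) {y : E} (hy : y ∈ c.ψ.target)
    (U W : V) : ∃ L : E →L[ℝ] E, HasFDerivAt (fun z => α.A c z U (α.ev c z W)) L y ∧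
      ∀ ξ, L ξ = Rm c.Γ y ξ (α.ev c y U) (α.ev c y W) + α.A c y U (α.A c y W ξ)
        - c.Γ y ξ (α.A c y U (α.ev c y W)) := by
  have h1 := (act_diff_ev α hc hy).clm_apply (hasFDerivAt_const W y)
  have h2 := (act_diff_A α hc hy).clm_apply (hasFDerivAt_const U y)
  refine ⟨_, h2.clm_apply h1, fun ξ => ?_⟩
  simp only [add_apply, ContinuousLinearMap.comp_apply, ContinuousLinearMap.flip_apply,
    zero_apply, map_zero, zero_add]
  rw [α.d_ev c hc y hy, α.d_A c hc y hy, map_sub]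
  abel

/- Differentiate comm with d_A_ev and use the Bianchi identity. -/
theorem Act.gauss (α : Act 𝒜 V) (hn : Nonneg 𝒜) {c : Chart E M} (hc : c ∈ 𝒜.S) {y : E}
    (hy : y ∈ c.ψ.target) (U W : V) (ξ : E) :
    Rm c.Γ y (α.ev c y U) (α.ev c y W) ξ
      = α.A c y U (α.A c y W ξ) - α.A c y W (α.A c y U ξ) := by
  obtain ⟨L, hL, eL⟩ := α.d_A_ev hc hy U W
  obtain ⟨L', hL', eL'⟩ := α.d_A_ev hc hy W U
  have he : (fun z => α.A c z U (α.ev c z W)) =ᶠ[𝓝 y] fun z => α.A c z W (α.ev c z U) := by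
    filter_upwards [c.ψ.open_target.mem_nhds hy] with z hz using α.comm c hc z hz U W
  have h1 : L ξ = L' ξ := by rw [hL.unique (hL'.congr_of_eventuallyEq he)]
  rw [eL, eL', α.comm c hc y hy U W] at h1
  have hR := hn.alg hc hy
  have h2 := hR.bianchi (α.ev c y U) (α.ev c y W) ξ
  rw [hR.anti (α.ev c y W) ξ] at h2
  linear_combination (norm := abel1) h2 - h1

/- 0 ≤ G (Rm U W W) U, gauss, skew and comm. -/
theorem Act.gauss_le (α : Act 𝒜 V) (hn : Nonneg 𝒜) {c : Chart E M} (hc : c ∈ 𝒜.S) {y : E}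
    (hy : y ∈ c.ψ.target) (U W : V) :
    c.G y (α.A c y U (α.ev c y U)) (α.A c y W (α.ev c y W))
      ≤ c.G y (α.A c y U (α.ev c y W)) (α.A c y U (α.ev c y W)) := by
  have h1 := hn c hc y hy (α.ev c y U) (α.ev c y W)
  have h2 := α.skew c hc y hy U (α.A c y W (α.ev c y W)) (α.ev c y U)
  have h3 := α.skew c hc y hy W (α.A c y U (α.ev c y W)) (α.ev c y U)
  rw [← α.comm c hc y hy U W] at h3
  rw [c.chr.symm y hy (α.A c y W (α.ev c y W))] at h2
  rw [α.gauss hn hc hy, map_sub, sub_apply, h2, h3] at h1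
  linarith

end Pool.Agent.MP_3a00c0_gt
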