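import Pool.Agent.MP_3fed84_gt.RayAux

/-! The curvature tensor in coordinates. -/

open Set Metric Filter Topology
open scoped ContDiff RealInnerProductSpace

set_option maxSynthPendingDepth 3
set_option linter.unusedSectionVars false

namespace Pool.Agent.MP_3a00c0_gt

open Pool.Agent.MP_3fed84_gt

variable {E : Type} [NormedAddCommGroup E] [InnerProductSpace ℝ E] [FiniteDimensional ℝ E]

/-- The curvature tensor R(a, b) c. -/
noncomputable def Rm (Γ : E → E →L[ℝ] E →L[ℝ] E) (y : E) : E →L[ℝ] E →L[ℝ] E →L[ℝ] E :=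
  fderiv ℝ Γ y - (fderiv ℝ Γ y).flip
    + (ContinuousLinearMap.compL ℝ E E E).bilinearComp (Γ y) (Γ y)
    - ((ContinuousLinearMap.compL ℝ E E E).bilinearComp (Γ y) (Γ y)).flip

theorem rm_apply (Γ : E → E →L[ℝ] E →L[ℝ] E) (y a b c : E) :
    Rm Γ y a b c = fderiv ℝ Γ y a b c - fderiv ℝ Γ y b a c
      + Γ y a (Γ y b c) - Γ y b (Γ y a c) := by
  simp [Rm]

/-- An algebraic curvature tensor with nonnegative sectional curvature for the form G. -/
structure CurvAlg (G : E →L[ℝ] E →L[ℝ] ℝ) (R : E →L[ℝ] E →L[ℝ] E →L[ℝ] E) : Prop where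
  symm : ∀ a b, G a b = G b a
  pos : ∀ a, a ≠ 0 → 0 < G a a
  anti : ∀ a b c, R a b c = -R b a c
  bianchi : ∀ a b c, R a b c + R b c a + R c a b = 0
  skew : ∀ a b c d, G (R a b c) d = -G c (R a b d)
  nonneg : ∀ a b, 0 ≤ G (R a b b) a

variable {G : E →L[ℝ] E →L[ℝ] ℝ} {R : E →L[ℝ] E →L[ℝ] E →L[ℝ] E}

/- Pair symmetry: the usual octahedron argument from anti, bianchi, skew, symm. -/
theorem CurvAlg.curv_anti (h : CurvAlg G R) (a b c d : E) : G (R a b c) d = -G (R b a c) d := by
  rw [h.anti a b c]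
  simp

theorem CurvAlg.curv_skew (h : CurvAlg G R) (a b c d : E) : G (R a b c) d = -G (R a b d) c := by
  rw [h.skew a b c d, h.symm c]

theorem CurvAlg.curv_bianchi (h : CurvAlg G R) (a b c d : E) :
    G (R a b c) d + G (R b c a) d + G (R c a b) d = 0 := by
  have := congrArg (fun v => G v d) (h.bianchi a b c)
  simpa using this

theorem CurvAlg.pair (h : CurvAlg G R) (a b c d : E) : G (R a b c) d = G (R c d a) b := by
  have b1 := h.curv_bianchi b c a d
  have b2 := h.curv_bianchi c a d b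
  have b3 := h.curv_bianchi a d b c
  have b4 := h.curv_bianchi d b c a
  have s1 := h.curv_skew b c a d
  have s2 := h.curv_skew c a b d
  have s3 := h.curv_skew a d b c
  have s4 := h.curv_skew d b c a
  have s5 := h.curv_skew b a d c
  have s6 := h.curv_skew d c b a
  have a1 := h.curv_anti b a c d
  have a2 := h.curv_anti d c a b
  have a3 := h.curv_anti b a d c
  have a4 := h.curv_anti d c b a
  have s7 := h.curv_skew a b d c
  have s8 := h.curv_skew c d b a
  linarith

theorem CurvAlg.curv_symm (h : CurvAlg G R) (a w u : E) : G (R w u u) a = G (R a u u) w := by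
  rw [h.pair w u u a, h.curv_anti u a w u, h.curv_skew a u w u, neg_neg]

theorem CurvAlg.curv_quad (h : CurvAlg G R) (a w u : E) (t : ℝ) :
    0 ≤ t ^ 2 * G (R a u u) a + 2 * t * G (R a u u) w + G (R w u u) w := by
  have h1 := h.nonneg (t • a + w) u
  simp only [map_add, map_smul, add_apply, smul_apply, smul_eq_mul] at h1
  rw [h.curv_symm a w u] at h1
  linarith

/- (a, w) ↦ G (R a u u) w is symmetric (pair) and positive semidefinite; expand at μ a + w. -/
theorem CurvAlg.amgm (h : CurvAlg G R) (a w u : E) {μ : ℝ} (hμ : 0 < μ) :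
    -(2 * G (R a u u) w) ≤ μ * G (R a u u) a + G (R w u u) w / μ := by
  have h1 := h.curv_quad a w u μ
  have h2 : μ * G (R a u u) a + G (R w u u) w / μ + 2 * G (R a u u) w
      = (μ ^ 2 * G (R a u u) a + 2 * μ * G (R a u u) w + G (R w u u) w) / μ := by
    field_simp
    ring
  have h3 := div_nonneg h1 hμ.le
  linarith

/- A positive semidefinite symmetric form vanishing at (a, a) vanishes at (a, w) for all w. -/
theorem CurvAlg.flat (h : CurvAlg G R) {a u : E} (h0 : G (R a u u) a = 0) : R a u u = 0 := by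
  have key : ∀ w, G (R a u u) w = 0 := by
    intro w
    by_contra hne
    have h1 := h.curv_quad a w u (-(G (R w u u) w + 1) / (2 * G (R a u u) w))
    have h2 : 2 * (-(G (R w u u) w + 1) / (2 * G (R a u u) w)) * G (R a u u) w
        = -(G (R w u u) w + 1) := by
      field_simp
    rw [h0, h2] at h1
    linarith
  exact eq_zero_of_pos h.pos (key _)

/- G (R ξ u u) ξ = G (R u ξ ξ) u by pair, so flat gives R u ξ ξ = 0 for all ξ; polarise:
T(ξ,η,ζ) = G (R u ξ η) ζ is alternating, and bianchi with pair give 3 T = 0. -/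
theorem CurvAlg.null (h : CurvAlg G R) {u : E} (h0 : ∀ ξ, G (R ξ u u) ξ = 0) (ξ η : E) :
    R ξ u η = 0 := by
  have h1 : ∀ x, R u x x = 0 := fun x => h.flat (by rw [h.pair u x x u]; exact h0 x)
  have h2 : ∀ x y z, G (R u x y) z = -G (R u y x) z := by
    intro x y z
    have := congrArg (fun v => G v z) (h1 (x + y))
    simp only [map_add, add_apply, h1 x, h1 y, map_zero, zero_apply] at this
    linarith
  have h3 : ∀ x y z, G (R u x y) z = 0 := by
    intro x y z
    have b := h.curv_bianchi y z x u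
    have p1 := h.pair u x y z
    have p2 := h.pair u y z x
    have p3 := h.pair u z x y
    have s1 := h.curv_skew y z u x
    have s2 := h.curv_skew z x u y
    have s3 := h.curv_skew x y u z
    have t1 := h2 x y z
    have t2 := h.curv_skew u y x z
    have t3 := h2 y z x
    have t4 := h.curv_skew u z y x
    linarith
  rw [h.anti ξ u η, eq_zero_of_pos h.pos (h3 ξ η _), neg_zero]

variable {U U' : Set E} {g g' : E → E →L[ℝ] E →L[ℝ] ℝ} {Γ Γ' : E → E →L[ℝ] E →L[ℝ] E}

theorem curv_apply_two {Y : Type} [NormedAddCommGroup Y] [NormedSpace ℝ Y]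
    {F : E → E →L[ℝ] E →L[ℝ] Y} {F' : E →L[ℝ] E →L[ℝ] E →L[ℝ] Y} {y : E}
    (hF : HasFDerivAt F F' y) (b c : E) :
    HasFDerivAt (fun z => F z b c) ((F'.flip b).flip c) y := by
  have h1 := (hF.clm_apply (hasFDerivAt_const b y)).clm_apply (hasFDerivAt_const c y)
  refine h1.congr_fderiv ?_
  ext a
  simp

theorem rm_smooth (h : Chr U g Γ) : ContDiffOn ℝ ∞ (Rm Γ) U := by
  have hd : ContDiffOn ℝ ∞ (fderiv ℝ Γ) U := h.smΓ.fderiv_of_isOpen h.opn (by simp)
  refine contDiffOn_clm_apply.2 fun a => contDiffOn_clm_apply.2 fun b =>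
    contDiffOn_clm_apply.2 fun c => ?_
  simp only [rm_apply]
  have h3 : ∀ a b c : E, ContDiffOn ℝ ∞ (fun y => fderiv ℝ Γ y a b c) U := fun a b c =>
    ((hd.clm_apply contDiffOn_const).clm_apply contDiffOn_const).clm_apply contDiffOn_const
  have h4 : ∀ a b c : E, ContDiffOn ℝ ∞ (fun y => Γ y a (Γ y b c)) U := fun a b c =>
    (h.smΓ.clm_apply contDiffOn_const).clm_apply
      ((h.smΓ.clm_apply contDiffOn_const).clm_apply contDiffOn_const)
  exact (((h3 a b c).sub (h3 b a c)).add (h4 a b c)).sub (h4 b a c)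

theorem curv_dΓ_symm (h : Chr U g Γ) {y : E} (hy : y ∈ U) (a b c : E) :
    fderiv ℝ Γ y a b c = fderiv ℝ Γ y a c b := by
  have hΓ := cda_hasF (h.smΓ.contDiffAt (h.opn.mem_nhds hy))
  have h1 := curv_apply_two hΓ b c
  have h2 := curv_apply_two hΓ c b
  have h3 : (fun z => Γ z b c) =ᶠ[𝓝 y] fun z => Γ z c b := by
    filter_upwards [h.opn.mem_nhds hy] with z hz using h.symΓ z hz b c
  have h4 := h1.unique (h2.congr_of_eventuallyEq h3)
  simpa using congrArg (fun L : E →L[ℝ] E => L a) h4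

theorem curv_ddg (h : Chr U g Γ) {y : E} (hy : y ∈ U) (e a b c : E) :
    fderiv ℝ (fderiv ℝ g) y e a b c
      = g y (Γ y e (Γ y a b)) c + g y (Γ y a b) (Γ y e c) + g y (fderiv ℝ Γ y e a b) c
        + g y (Γ y e b) (Γ y a c) + g y b (Γ y e (Γ y a c)) + g y b (fderiv ℝ Γ y e a c) := by
  have hg := h.smG.contDiffAt (h.opn.mem_nhds hy)
  have hΓ := cda_hasF (h.smΓ.contDiffAt (h.opn.mem_nhds hy))
  have h0 := (cda_hasF (cda_fderiv hg)).clm_apply (hasFDerivAt_const a y)
  have h1 := curv_apply_two h0 b c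
  have h2 := (((cda_hasF hg).clm_apply (curv_apply_two hΓ a b)).clm_apply
    (hasFDerivAt_const c y)).add
    (((cda_hasF hg).clm_apply (hasFDerivAt_const b y)).clm_apply (curv_apply_two hΓ a c))
  have h3 : (fun z => fderiv ℝ g z a b c) =ᶠ[𝓝 y]
      (fun z => g z (Γ z a b) c) + fun z => g z b (Γ z a c) := by
    filter_upwards [h.opn.mem_nhds hy] with z hz using h.compat z hz a b c
  have h4 := congrArg (fun L : E →L[ℝ] ℝ => L e) (h1.unique (h2.congr_of_eventuallyEq h3))
  simp only [add_apply, ContinuousLinearMap.comp_apply, ContinuousLinearMap.flip_apply,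
    zero_apply, map_zero, zero_add, h.compat y hy] at h4
  rw [h4]
  ring

/- bianchi: fderiv Γ y a b c is symmetric in b, c (differentiate symΓ on the open set U).
skew: differentiate h.compat in the direction a' and use the symmetry of the second
derivative of g (cda_symm). -/
theorem curvAlg_of_chr (h : Chr U g Γ) {y : E} (hy : y ∈ U)
    (hn : ∀ a b, 0 ≤ g y (Rm Γ y a b b) a) : CurvAlg (g y) (Rm Γ y) := by
  refine ⟨h.symm y hy, h.pos y hy, fun a b c => ?_, fun a b c => ?_, fun a b c d => ?_, hn⟩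
  · simp only [rm_apply]
    abel
  · simp only [rm_apply]
    rw [curv_dΓ_symm h hy a c b, curv_dΓ_symm h hy b c a, curv_dΓ_symm h hy c b a,
      h.symΓ y hy c b, h.symΓ y hy c a, h.symΓ y hy b a]
    abel
  · have h1 := curv_ddg h hy a b c d
    have h2 := curv_ddg h hy b a c d
    rw [cda_symm (cda_two (h.smG.contDiffAt (h.opn.mem_nhds hy))) a b, h2] at h1
    simp only [rm_apply, map_add, map_sub, add_apply, sub_apply]
    linarith

/- Differentiate the identity snd_deriv (valid near y) in the direction a, antisymmetrise in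
a, b; the third derivative of f is symmetric in its first two slots (cda_symm for fderiv f). -/
theorem rm_iso (h : Chr U g Γ) (h' : Chr U' g' Γ') {f : E → E} {y : E} (hy : y ∈ U)
    (hy' : f y ∈ U') (hf : ∀ᶠ z in 𝓝 y, ContDiffAt ℝ ∞ f z ∧ IsoAt g g' f z) (a b c : E) :
    Rm Γ' (f y) (fderiv ℝ f y a) (fderiv ℝ f y b) (fderiv ℝ f y c)
      = fderiv ℝ f y (Rm Γ y a b c) := by
  have hf0 := hf.self_of_nhds.1
  have hsnd : ∀ᶠ z in 𝓝 y, ∀ b c, fderiv ℝ (fderiv ℝ f) z b c
      = fderiv ℝ f z (Γ z b c) - Γ' (f z) (fderiv ℝ f z b) (fderiv ℝ f z c) := by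
    filter_upwards [h.opn.mem_nhds hy, hf0.continuousAt (h'.opn.mem_nhds hy'), hf,
      eventually_eventually_nhds.2 hf] with z a1 a2 a3 a4
    exact snd_deriv h h' a1 a2 (cda_two a3.1) (a4.mono fun _ hz => hz.2)
  have hs0 := hsnd.self_of_nhds
  have hΓ := cda_hasF (h.smΓ.contDiffAt (h.opn.mem_nhds hy))
  have hΓ' := (cda_hasF (h'.smΓ.contDiffAt (h'.opn.mem_nhds hy'))).comp y (cda_hasF hf0)
  have hA := cda_hasF (cda_fderiv hf0)
  have hD := cda_hasF (cda_fderiv (cda_fderiv hf0))
  have key : ∀ a b c, fderiv ℝ (fderiv ℝ (fderiv ℝ f)) y a b c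
      = fderiv ℝ (fderiv ℝ f) y a (Γ y b c) + fderiv ℝ f y (fderiv ℝ Γ y a b c)
        - (fderiv ℝ Γ' (f y) (fderiv ℝ f y a) (fderiv ℝ f y b) (fderiv ℝ f y c)
          + Γ' (f y) (fderiv ℝ (fderiv ℝ f) y a b) (fderiv ℝ f y c)
          + Γ' (f y) (fderiv ℝ f y b) (fderiv ℝ (fderiv ℝ f) y a c)) := by
    intro a b c
    have h1 := curv_apply_two hD b c
    have h2 := (hA.clm_apply (curv_apply_two hΓ b c)).sub
      ((hΓ'.clm_apply (hA.clm_apply (hasFDerivAt_const b y))).clm_apply
        (hA.clm_apply (hasFDerivAt_const c y)))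
    have h3 : (fun z => fderiv ℝ (fderiv ℝ f) z b c) =ᶠ[𝓝 y]
        (fun z => fderiv ℝ f z (Γ z b c))
          - fun z => (Γ' ∘ f) z (fderiv ℝ f z b) (fderiv ℝ f z c) := by
      filter_upwards [hsnd] with z hz using hz b c
    have h4 := congrArg (fun L : E →L[ℝ] E => L a) (h1.unique (h2.congr_of_eventuallyEq h3))
    simp only [add_apply, sub_apply, ContinuousLinearMap.comp_apply,
      ContinuousLinearMap.flip_apply, zero_apply, map_zero, zero_add, Function.comp_apply] at h4
    rw [h4]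
    abel
  have k1 := key a b c
  have k2 := key b a c
  rw [cda_symm (cda_two (cda_fderiv hf0)) a b, k2, cda_symm (cda_two hf0) b a,
    hs0 a (Γ y b c), hs0 b (Γ y a c), hs0 a c, hs0 b c] at k1
  simp only [rm_apply, map_add, map_sub] at k1 ⊢
  linear_combination (norm := module) k1

/-- Nonnegative sectional curvature in every chart of the atlas. -/
def Nonneg {M : Type} [TopologicalSpace M] (𝒜 : Atlas E M) : Prop :=
  ∀ c ∈ 𝒜.S, ∀ y ∈ c.ψ.target, ∀ a b, 0 ≤ c.G y (Rm c.Γ y a b b) a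

theorem Nonneg.alg {M : Type} [TopologicalSpace M] {𝒜 : Atlas E M} (h : Nonneg 𝒜)
    {c : Chart E M} (hc : c ∈ 𝒜.S) {y : E} (hy : y ∈ c.ψ.target) :
    CurvAlg (c.G y) (Rm c.Γ y) := curvAlg_of_chr c.chr hy (h c hc y hy)

end Pool.Agent.MP_3a00c0_gt
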