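import Pool.Agent.MP_3fed84_gt.Defs

/-!
Nonnegative sectional curvature and isometries of a smooth Riemannian manifold.  The metric,
its coefficients in a chart (coef) and pulled back metrics come from the imported file.
-/

open scoped Manifold ContDiff

namespace Pool.Agent.MP_3a00c0_gt

open Pool.Agent.MP_3fed84_gt

variable {E : Type} [NormedAddCommGroup E] [NormedSpace ℝ E]

/-- Γ are the Christoffel symbols of the coordinate metric G on the set U:
G(Γ(a, b), c) = (1/2) (∂_a G(b, c) + ∂_b G(a, c) - ∂_c G(a, b)). -/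
def IsChristoffel (G : E → E → E → ℝ) (Γ : E → E → E → E) (U : Set E) : Prop :=
  ∀ y ∈ U, ∀ a b c : E, G y (Γ y a b) c =
    (1 / 2) * (fderiv ℝ (fun z => G z b c) y a + fderiv ℝ (fun z => G z a c) y b
      - fderiv ℝ (fun z => G z a b) y c)

/-- The curvature tensor R(a, b) c = ∇_a ∇_b c - ∇_b ∇_a c in coordinates. -/
noncomputable def riemann (Γ : E → E → E → E) (y a b c : E) : E :=
  fderiv ℝ (fun z => Γ z b c) y a - fderiv ℝ (fun z => Γ z a c) y b
    + Γ y a (Γ y b c) - Γ y b (Γ y a c)

variable {M : Type} [TopologicalSpace M] [ChartedSpace E M] [IsManifold 𝓘(ℝ, E) ∞ M]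

/-- All sectional curvatures are nonnegative: g(R(a, b) b, a) ≥ 0 at every point of every
chart. -/
def NonnegCurvature (g : RiemMetric E M) : Prop :=
  ∀ (x : M) (Γ : E → E → E → E), IsChristoffel (coef g x) Γ (chartAt E x).target →
    ∀ y ∈ (chartAt E x).target, ∀ a b : E, 0 ≤ coef g x y (riemann Γ y a b b) a

/-- f is smooth and pulls the metric back to itself. -/
def IsIsometry (g : RiemMetric E M) (f : M → M) : Prop :=
  ContMDiff 𝓘(ℝ, E) 𝓘(ℝ, E) ∞ f ∧ ∀ (m : M) (a b : E), pullback g f m a b = ip g m a b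

end Pool.Agent.MP_3a00c0_gt
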