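import Pool.Agent.MP_3a00c0_gt.Curv

/-! Jacobi fields in coordinates, a Rauch type estimate, Killing fields. -/

open Set Metric Filter Topology
open scoped ContDiff RealInnerProductSpace

set_option maxSynthPendingDepth 3
set_option linter.unusedSectionVars false

namespace Pool.Agent.MP_3a00c0_gt

open Pool.Agent.MP_3fed84_gt

variable {E : Type} [NormedAddCommGroup E] [InnerProductSpace ℝ E] [FiniteDimensional ℝ E]
  {U U' : Set E} {G G' : E → E →L[ℝ] E →L[ℝ] ℝ} {Γ Γ' : E → E →L[ℝ] E →L[ℝ] E}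

/-- At time t, y is a geodesic with velocity u and J is a Jacobi field along it with covariant
derivative J₁. -/
structure JacAt (Γ : E → E →L[ℝ] E →L[ℝ] E) (y u J J₁ : ℝ → E) (t : ℝ) : Prop where
  dy : HasDerivAt y (u t) t
  du : HasDerivAt u (-(Γ (y t) (u t) (u t))) t
  dJ : HasDerivAt J (J₁ t - Γ (y t) (u t) (J t)) t
  dJ₁ : HasDerivAt J₁ (Rm Γ (y t) (u t) (J t) (u t) - Γ (y t) (u t) (J₁ t)) t

/- Product rule and h.compat. -/
theorem cov_inner (h : Chr U G Γ) {y a b : ℝ → E} {u a₁ b₁ : E} {t : ℝ} (hy : y t ∈ U)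
    (dy : HasDerivAt y u t) (da : HasDerivAt a (a₁ - Γ (y t) u (a t)) t)
    (db : HasDerivAt b (b₁ - Γ (y t) u (b t)) t) :
    HasDerivAt (fun s => G (y s) (a s) (b s)) (G (y t) a₁ (b t) + G (y t) (a t) b₁) t := by
  have h3 := (h.diffG hy).hasFDerivAt.comp_hasDerivAt t dy
  refine ((h3.clm_apply da).clm_apply db).congr_deriv ?_
  simp only [add_apply, Function.comp_apply, h.compat _ hy, map_sub, sub_apply]
  ring

theorem jac_anti {f f' : ℝ → ℝ} {D : Set ℝ} (hD : Convex ℝ D)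
    (hf : ∀ x ∈ D, HasDerivAt f (f' x) x) (h0 : ∀ x ∈ D, f' x ≤ 0) : AntitoneOn f D :=
  antitoneOn_of_deriv_nonpos hD (fun x hx => (hf x hx).continuousAt.continuousWithinAt)
    (fun x hx => (hf x (interior_subset hx)).differentiableAt.differentiableWithinAt)
    fun x hx => by rw [(hf x (interior_subset hx)).deriv]; exact h0 x (interior_subset hx)

theorem jac_ode {a b c k a' : ℝ → ℝ} (da : ∀ t ∈ Icc (0 : ℝ) 1, HasDerivAt a (a' t) t)
    (db : ∀ t ∈ Icc (0 : ℝ) 1, HasDerivAt b (k t - a t) t)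
    (dc : ∀ t ∈ Icc (0 : ℝ) 1, HasDerivAt c (-(2 * b t)) t)
    (ha : ∀ t ∈ Icc (0 : ℝ) 1, 0 ≤ a t) (hk : ∀ t ∈ Icc (0 : ℝ) 1, 0 ≤ k t)
    (ha' : ∀ t ∈ Ioc (0 : ℝ) 1, a' t ≤ t / 2 * k t + 1 / 4 * a t / (t / 2))
    (a0 : a 0 = 0) (b0 : b 0 = 0) (a0' : a' 0 = 0) :
    AntitoneOn c (Icc 0 1) ∧ a 1 ≤ b 1 ∧ (b 1 = 0 → c 1 = c 0) := by
  have dθ : ∀ t ∈ Icc (0 : ℝ) 1, HasDerivAt (fun s => a s - s * b s / 2)
      (a' t - (1 * b t + t * (k t - a t)) / 2) t := fun t ht =>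
    (da t ht).sub (((hasDerivAt_id t).mul (db t ht)).div_const 2)
  have h1 : AntitoneOn (fun s => (a s - s * b s / 2) / s) (Ioc 0 1) := by
    refine jac_anti (convex_Ioc 0 1)
      (fun t ht => (dθ t (Ioc_subset_Icc_self ht)).div (hasDerivAt_id t) ht.1.ne') ?_
    intro t ht
    refine div_nonpos_of_nonpos_of_nonneg ?_ (sq_nonneg _)
    have h2 := ha' t ht
    have h3 := ha t (Ioc_subset_Icc_self ht)
    have h4 : 1 / 4 * a t / (t / 2) * t = a t / 2 := by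
      have := ht.1.ne'
      field_simp
      ring
    have h5 := mul_le_mul_of_nonneg_right h2 ht.1.le
    have h6 : t * t * a t ≤ 1 * a t :=
      mul_le_mul_of_nonneg_right (mul_le_one₀ ht.2 ht.1.le ht.2) h3
    nlinarith
  have h2 : Tendsto (fun s => (a s - s * b s / 2) / s) (𝓝[>] 0) (𝓝 0) := by
    have := (dθ 0 ⟨le_rfl, zero_le_one⟩).tendsto_slope_zero_right
    simpa [a0, b0, a0', div_eq_inv_mul] using this
  have h3 : ∀ t ∈ Icc (0 : ℝ) 1, a t ≤ t * b t / 2 := by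
    intro t ht
    rcases ht.1.eq_or_lt with rfl | h
    · simp [a0]
    · have h4 : (a t - t * b t / 2) / t ≤ 0 := by
        refine ge_of_tendsto h2 ?_
        filter_upwards [Ioc_mem_nhdsGT h] with s hs
        exact h1 ⟨hs.1, hs.2.trans ht.2⟩ ⟨h, ht.2⟩ hs.2
      have := (div_le_iff₀ h).1 h4
      linarith
  have h4 : ∀ t ∈ Icc (0 : ℝ) 1, 0 ≤ b t := by
    intro t ht
    rcases ht.1.eq_or_lt with rfl | h
    · exact b0.ge
    · have := (ha t ht).trans (h3 t ht)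
      by_contra hn
      nlinarith [mul_pos h (neg_pos.2 (not_le.1 hn))]
  have one : (1 : ℝ) ∈ Icc (0 : ℝ) 1 := ⟨zero_le_one, le_rfl⟩
  have zero : (0 : ℝ) ∈ Icc (0 : ℝ) 1 := ⟨le_rfl, zero_le_one⟩
  have h5 : AntitoneOn c (Icc 0 1) :=
    jac_anti (convex_Icc 0 1) dc fun t ht => by linarith [h4 t ht]
  refine ⟨h5, by linarith [h3 1 one, h4 1 one], fun hb => ?_⟩
  have h6 : AntitoneOn (fun s => -(b s * Real.exp (s * s / 4))) (Icc 0 1) := by
    refine jac_anti (convex_Icc 0 1) (fun t ht => ((db t ht).mul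
      (((hasDerivAt_id t).mul (hasDerivAt_id t)).div_const 4).exp).neg) ?_
    intro t ht
    have e1 := Real.exp_pos (t * t / 4)
    have e2 : 0 ≤ k t - a t + t * b t / 2 := by linarith [h3 t ht, hk t ht]
    have e3 := mul_nonneg e2 e1.le
    simp only [id, Pi.mul_apply]
    nlinarith
  have h7 : ∀ t ∈ Icc (0 : ℝ) 1, b t ≤ 0 := by
    intro t ht
    have e1 := h6 ht one ht.2
    simp only [hb, zero_mul, neg_zero] at e1
    have e2 := Real.exp_pos (t * t / 4)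
    by_contra hn
    nlinarith [mul_pos (not_le.1 hn) e2]
  have h8 : AntitoneOn (fun s => -c s) (Icc 0 1) :=
    jac_anti (convex_Icc 0 1) (fun t ht => (dc t ht).neg) fun t ht => by linarith [h7 t ht]
  have e1 := h5 zero one zero_le_one
  have e2 := h8 zero one zero_le_one
  simp only at e2
  linarith

/- Put a = G J₁ J₁, b = -G J₁ J, k = G (Rm J u u) J ≥ 0.  By cov_inner and anti,
a' = -2 G (Rm J u u) J₁ ≤ (t/2) k + (2/t) (a/4) (amgm with μ = t/2 and hK), b' = k - a,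
(G J J)' = -2 b.  For θ = a - t b / 2 one gets θ' ≤ θ/t - a (1/(2t) - t/2) ≤ θ/t on (0,1], so θ/t
is antitone on (0,1]; θ 0 = 0 and θ'(0) = 0 (J₁ 0 = 0), hence θ ≤ 0.  So 0 ≤ a ≤ t b / 2.
Finally b' ≥ -a ≥ -t b/2, so b t * exp (t^2/4) is monotone; if b 1 = 0 then b = 0 on [0,1]. -/
theorem rauch (h : Chr U G Γ) {y u J J₁ : ℝ → E}
    (hj : ∀ t ∈ Icc (0 : ℝ) 1, y t ∈ U ∧ JacAt Γ y u J J₁ t)
    (hR : ∀ t ∈ Icc (0 : ℝ) 1, CurvAlg (G (y t)) (Rm Γ (y t)))
    (hK : ∀ t ∈ Icc (0 : ℝ) 1, ∀ b,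
      G (y t) (Rm Γ (y t) b (u t) (u t)) b ≤ (1 / 4) * G (y t) b b)
    (h0 : J₁ 0 = 0) :
    AntitoneOn (fun t => G (y t) (J t) (J t)) (Icc 0 1) ∧
      G (y 1) (J₁ 1) (J₁ 1) ≤ -G (y 1) (J₁ 1) (J 1) ∧
      (G (y 1) (J₁ 1) (J 1) = 0 → G (y 1) (J 1) (J 1) = G (y 0) (J 0) (J 0)) := by
  have key := jac_ode (a := fun t => G (y t) (J₁ t) (J₁ t)) (b := fun t => -G (y t) (J₁ t) (J t))
    (c := fun t => G (y t) (J t) (J t))
    (k := fun t => G (y t) (Rm Γ (y t) (J t) (u t) (u t)) (J t))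
    (a' := fun t => -(2 * G (y t) (Rm Γ (y t) (J t) (u t) (u t)) (J₁ t))) ?_ ?_ ?_ ?_ ?_ ?_
    (by simp [h0]) (by simp [h0]) (by simp [h0])
  · exact ⟨key.1, key.2.1, fun h1 => key.2.2 (by simp [h1])⟩
  · intro t ht
    obtain ⟨hy, hJ⟩ := hj t ht
    refine (cov_inner h hy hJ.dy hJ.dJ₁ hJ.dJ₁).congr_deriv ?_
    rw [(hR t ht).symm (J₁ t), (hR t ht).anti (u t)]
    simp only [map_neg, neg_apply]
    ring
  · intro t ht
    obtain ⟨hy, hJ⟩ := hj t ht
    refine (cov_inner h hy hJ.dy hJ.dJ₁ hJ.dJ).neg.congr_deriv ?_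
    rw [(hR t ht).anti (u t)]
    simp only [map_neg, neg_apply]
    ring
  · intro t ht
    obtain ⟨hy, hJ⟩ := hj t ht
    refine (cov_inner h hy hJ.dy hJ.dJ hJ.dJ).congr_deriv ?_
    rw [(hR t ht).symm (J t)]
    ring
  · intro t ht
    by_cases h1 : J₁ t = 0
    · simp [h1]
    · exact ((hR t ht).pos _ h1).le
  · intro t ht
    exact (hR t ht).nonneg _ _
  · intro t ht
    have h1 := Ioc_subset_Icc_self ht
    have h2 : 0 < t / 2 := half_pos ht.1
    refine ((hR t h1).amgm (J t) (J₁ t) (u t) h2).trans (add_le_add le_rfl ?_)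
    exact div_le_div_of_nonneg_right (hK t h1 _) h2.le

theorem jac_dΓ (h : Chr U G Γ) {y : E} (hy : y ∈ U) : HasFDerivAt Γ (fderiv ℝ Γ y) y :=
  cda_hasF (h.smΓ.contDiffAt (h.opn.mem_nhds hy))

theorem jac_dsym (h : Chr U G Γ) {y : E} (hy : y ∈ U) (a b c : E) :
    fderiv ℝ Γ y a b c = fderiv ℝ Γ y a c b := by
  have h1 := fun b c : E =>
    ((jac_dΓ h hy).clm_apply (hasFDerivAt_const b y)).clm_apply (hasFDerivAt_const c y)
  have h3 : (fun z => Γ z b c) =ᶠ[𝓝 y] fun z => Γ z c b := by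
    filter_upwards [h.opn.mem_nhds hy] with z hz using h.symΓ z hz b c
  have h4 := (h1 b c).unique ((h1 c b).congr_of_eventuallyEq h3)
  simpa using congrArg (fun L : E →L[ℝ] E => L a) h4

theorem jac_fderiv_fld (h : Chr U G Γ) {q : E × E} (hq : q.1 ∈ U) (v : E × E) :
    fderiv ℝ (fld Γ) q v
      = (v.2, -(fderiv ℝ Γ q.1 v.1 q.2 q.2 + Γ q.1 v.2 q.2 + Γ q.1 q.2 v.2)) := by
  have d1 := HasFDerivAt.comp (g := Γ) q (jac_dΓ h hq) (hasFDerivAt_fst (𝕜 := ℝ) (p := q))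
  have d2 : HasFDerivAt (fld Γ) _ q := (hasFDerivAt_snd (𝕜 := ℝ) (p := q)).prodMk
    ((d1.clm_apply (hasFDerivAt_snd (𝕜 := ℝ) (p := q))).clm_apply
      (hasFDerivAt_snd (𝕜 := ℝ) (p := q))).neg
  rw [d2.fderiv]
  simp
  abel

/- Z is a smooth family of solutions of the geodesic system; its variation in the direction ξ
solves the linearised system (see the lemma key inside variation_zero of RayAux):
with (J, J') = fderiv Z (s,p) (0,ξ), J has derivative J' and J' has derivative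
-(fderiv Γ y J u u) - Γ J' u - Γ u J'.  Then J₁ = J' + Γ u J; use symΓ and its derivative. -/
theorem jacAt_of_family (h : Chr U G Γ) {P : Type} [NormedAddCommGroup P] [NormedSpace ℝ P]
    {Z : ℝ × P → E × E} {t : ℝ} {p : P} (hZ : ContDiffAt ℝ ∞ Z (t, p)) (hU : (Z (t, p)).1 ∈ U)
    (hode : ∀ᶠ q in 𝓝 (t, p), fderiv ℝ Z q (1, 0) = fld Γ (Z q)) (ξ : P) :
    JacAt Γ (fun s => (Z (s, p)).1) (fun s => (Z (s, p)).2)
      (fun s => (fderiv ℝ Z (s, p) (0, ξ)).1)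
      (fun s => (fderiv ℝ Z (s, p) (0, ξ)).2
        + Γ (Z (s, p)).1 (Z (s, p)).2 (fderiv ℝ Z (s, p) (0, ξ)).1) t := by
  have hl : HasDerivAt (fun s : ℝ => (s, p)) ((1 : ℝ), (0 : P)) t :=
    (hasDerivAt_id t).prodMk (hasDerivAt_const t p)
  have d1 := cda_hasF hZ
  have d2 := cda_hasF (cda_fderiv hZ)
  have d3 := cda_hasF (fld_smooth h hU)
  have e1 : HasDerivAt (fun s : ℝ => Z (s, p)) (fld Γ (Z (t, p))) t := by
    have : HasDerivAt (fun s : ℝ => Z (s, p)) (fderiv ℝ Z (t, p) ((1 : ℝ), (0 : P))) t :=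
      HasFDerivAt.comp_hasDerivAt (l := Z) (f := fun s : ℝ => (s, p)) t d1 hl
    rwa [hode.self_of_nhds] at this
  have e2 : HasDerivAt (fun s : ℝ => fderiv ℝ Z (s, p) (0, ξ))
      (fderiv ℝ (fld Γ) (Z (t, p)) (fderiv ℝ Z (t, p) (0, ξ))) t := by
    have h8 : HasDerivAt (fun s : ℝ => fderiv ℝ Z (s, p))
        (fderiv ℝ (fderiv ℝ Z) (t, p) ((1 : ℝ), (0 : P))) t :=
      HasFDerivAt.comp_hasDerivAt (l := fderiv ℝ Z) (f := fun s : ℝ => (s, p)) t d2 hl
    have h4 := h8.clm_apply (hasDerivAt_const t ((0 : ℝ), ξ))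
    have h5 := d2.clm_apply (hasFDerivAt_const ((1 : ℝ), (0 : P)) (t, p))
    have h3' : (fun q => fderiv ℝ Z q (1, 0)) =ᶠ[𝓝 (t, p)] fld Γ ∘ Z := hode
    have h6 := (d3.comp (t, p) d1).congr_of_eventuallyEq h3'
    have h7 := congrArg (fun L => L ((0 : ℝ), ξ)) (h5.unique h6)
    simp only [ContinuousLinearMap.comp_zero, zero_add, ContinuousLinearMap.flip_apply,
      ContinuousLinearMap.comp_apply] at h7
    simp only [map_zero, add_zero] at h4
    rw [cda_symm (cda_two hZ), h7] at h4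
    exact h4
  rw [jac_fderiv_fld h hU] at e2
  have dy : HasDerivAt (fun s : ℝ => (Z (s, p)).1) (Z (t, p)).2 t :=
    (ContinuousLinearMap.fst ℝ E E).hasFDerivAt.comp_hasDerivAt t e1
  have du : HasDerivAt (fun s : ℝ => (Z (s, p)).2)
      (-(Γ (Z (t, p)).1 (Z (t, p)).2 (Z (t, p)).2)) t :=
    (ContinuousLinearMap.snd ℝ E E).hasFDerivAt.comp_hasDerivAt t e1
  have dJ : HasDerivAt (fun s : ℝ => (fderiv ℝ Z (s, p) (0, ξ)).1)
      (fderiv ℝ Z (t, p) (0, ξ)).2 t :=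
    (ContinuousLinearMap.fst ℝ E E).hasFDerivAt.comp_hasDerivAt t e2
  have dJ' : HasDerivAt (fun s : ℝ => (fderiv ℝ Z (s, p) (0, ξ)).2) _ t :=
    (ContinuousLinearMap.snd ℝ E E).hasFDerivAt.comp_hasDerivAt t e2
  have dΓ : HasDerivAt (fun s : ℝ => Γ (Z (s, p)).1)
      (fderiv ℝ Γ (Z (t, p)).1 (Z (t, p)).2) t :=
    HasFDerivAt.comp_hasDerivAt (l := Γ) t (jac_dΓ h hU) dy
  refine ⟨dy, du, dJ.congr_deriv (by simp), ?_⟩
  refine (dJ'.add ((dΓ.clm_apply du).clm_apply dJ)).congr_deriv ?_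
  simp only [rm_apply, ContinuousLinearMap.coe_snd', add_apply, map_neg, neg_apply, map_add]
  rw [jac_dsym h hU (Z (t, p)).2 (fderiv ℝ Z (t, p) (0, ξ)).1,
    h.symΓ _ hU (fderiv ℝ Z (t, p) (0, ξ)).1 (Z (t, p)).2,
    h.symΓ _ hU (fderiv ℝ Z (t, p) (0, ξ)).1, h.symΓ _ hU (fderiv ℝ Z (t, p) (0, ξ)).2]
  abel

/-- The covariant derivative of the vector field W. -/
noncomputable def cov (Γ : E → E →L[ℝ] E →L[ℝ] E) (W : E → E) (y : E) : E →L[ℝ] E :=
  fderiv ℝ W y + (Γ y).flip (W y)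

theorem cov_apply (Γ : E → E →L[ℝ] E →L[ℝ] E) (W : E → E) (y a : E) :
    cov Γ W y a = fderiv ℝ W y a + Γ y a (W y) := by
  simp [cov]

/- Let B ξ η = fderiv (cov W) y ξ η + Γ ξ (cov η) - cov (Γ ξ η).  Expanding gives
B ξ η - B η ξ = Rm ξ η (W y) (symmetry of the second derivative of W, symΓ); differentiating
hk (with compat) gives G (B ξ η) ζ = - G η (B ξ ζ).  So T ξ η = B ξ η - Rm ξ (W y) η is symmetric
in ξ, η (Bianchi) and skew in η, ζ, hence zero (as in snd_deriv of Coord).  The symmetries of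
Rm hold without the sign condition: prove them as in curvAlg_of_chr or restate them. -/
theorem killing_deriv (h : Chr U G Γ) {W : E → E} (hW : ContDiffOn ℝ ∞ W U)
    (hk : ∀ y ∈ U, ∀ a b, G y (cov Γ W y a) b = -G y a (cov Γ W y b)) {y : E} (hy : y ∈ U)
    (hR : CurvAlg (G y) (Rm Γ y)) (ξ η : E) :
    fderiv ℝ (cov Γ W) y ξ η
      = Rm Γ y ξ (W y) η - Γ y ξ (cov Γ W y η) + cov Γ W y (Γ y ξ η) := by
  have hWy : ContDiffAt ℝ ∞ W y := hW.contDiffAt (h.opn.mem_nhds hy)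
  have d1 := cda_hasF hWy
  have d2 := cda_hasF (cda_fderiv hWy)
  have dA : DifferentiableAt ℝ (cov Γ W) y := by
    have h1 : DifferentiableAt ℝ (fun z => (Γ z).flip) y :=
      (ContinuousLinearMap.flipₗᵢ ℝ E E E).toContinuousLinearEquiv.differentiableAt.comp y
        (jac_dΓ h hy).differentiableAt
    exact d2.differentiableAt.add (h1.clm_apply d1.differentiableAt)
  have dA' := fun η : E => dA.hasFDerivAt.clm_apply (hasFDerivAt_const η y)
  have e1 : ∀ ξ η, fderiv ℝ (cov Γ W) y ξ η = fderiv ℝ (fderiv ℝ W) y ξ η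
      + (fderiv ℝ Γ y ξ η (W y) + Γ y η (fderiv ℝ W y ξ)) := by
    intro ξ η
    have h1 := (d2.clm_apply (hasFDerivAt_const η y)).add
      (((jac_dΓ h hy).clm_apply (hasFDerivAt_const η y)).clm_apply d1)
    have h2 := (dA' η).unique (h1.congr_of_eventuallyEq
      (Eventually.of_forall fun z => cov_apply Γ W z η))
    have h3 := congrArg (fun L : E →L[ℝ] E => L ξ) h2
    simp only [add_apply, ContinuousLinearMap.comp_apply, ContinuousLinearMap.flip_apply,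
      zero_apply, map_zero, zero_add] at h3
    rw [h3]
    abel
  set T : E → E → E := fun ξ η => fderiv ℝ (cov Γ W) y ξ η
    - (Rm Γ y ξ (W y) η - Γ y ξ (cov Γ W y η) + cov Γ W y (Γ y ξ η)) with hT
  have s1 : ∀ a b, T a b = T b a := by
    intro a b
    have h1 := hR.bianchi a b (W y)
    rw [hR.anti (W y) a b, rm_apply Γ y a b (W y)] at h1
    rw [← sub_eq_zero, ← h1]
    simp only [hT, e1, h.symΓ y hy b a, cda_symm (cda_two hWy) b a, cov_apply Γ W y a,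
      cov_apply Γ W y b, map_add]
    abel
  have s2 : ∀ a b c, G y (T a b) c = -G y (T a c) b := by
    intro a b c
    have dG := (h.diffG hy).hasFDerivAt
    have h1 := (dG.clm_apply (dA' b)).clm_apply (hasFDerivAt_const c y)
    have h2 := ((dG.clm_apply (hasFDerivAt_const b y)).clm_apply (dA' c)).neg
    have h3 : (fun z => G z (cov Γ W z b) c) =ᶠ[𝓝 y] fun z => -G z b (cov Γ W z c) := by
      filter_upwards [h.opn.mem_nhds hy] with z hz using hk z hz b c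
    have h4 := congrArg (fun L : E →L[ℝ] ℝ => L a) (h1.unique (h2.congr_of_eventuallyEq h3))
    simp only [add_apply, ContinuousLinearMap.comp_apply, ContinuousLinearMap.flip_apply,
      zero_apply, map_zero, zero_add, neg_apply, h.compat y hy] at h4
    have h5 := hk y hy (Γ y a b) c
    have h6 := hk y hy b (Γ y a c)
    have h7 := hR.skew a (W y) b c
    rw [hR.symm (T a c) b]
    simp only [hT, map_sub, map_add, sub_apply, add_apply]
    linarith
  have s3 : G y (T ξ η) (T ξ η) = 0 := by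
    have h1 := s2 ξ η (T ξ η)
    have h2 := s2 (T ξ η) ξ η
    have h3 := s2 η (T ξ η) ξ
    rw [s1 ξ (T ξ η)] at h1
    rw [s1 (T ξ η) η] at h2
    rw [s1 η ξ] at h3
    linarith
  exact sub_eq_zero.1 (eq_zero_of_pos hR.pos s3)

/- Differentiate hW at y in the direction a and use snd_deriv. -/
theorem cov_iso (h : Chr U G Γ) (h' : Chr U' G' Γ') {f : E → E} {y : E} (hy : y ∈ U)
    (hy' : f y ∈ U') (hf : ∀ᶠ z in 𝓝 y, ContDiffAt ℝ ∞ f z ∧ IsoAt G G' f z) {W W' : E → E}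
    (dW : DifferentiableAt ℝ W y) (dW' : DifferentiableAt ℝ W' (f y))
    (hW : ∀ᶠ z in 𝓝 y, W' (f z) = fderiv ℝ f z (W z)) (a : E) :
    cov Γ' W' (f y) (fderiv ℝ f y a) = fderiv ℝ f y (cov Γ W y a) := by
  have hf0 := hf.self_of_nhds.1
  have d1 := cda_hasF hf0
  have d2 := cda_hasF (cda_fderiv hf0)
  have h1 := (dW'.hasFDerivAt.comp y d1).unique
    ((d2.clm_apply dW.hasFDerivAt).congr_of_eventuallyEq hW)
  have h2 := congrArg (fun L : E →L[ℝ] E => L a) h1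
  simp only [add_apply, ContinuousLinearMap.comp_apply, ContinuousLinearMap.flip_apply] at h2
  rw [cov_apply, cov_apply, h2, hW.self_of_nhds,
    snd_deriv h h' hy hy' (cda_two hf0) (hf.mono fun _ hz => hz.2), map_add]
  abel

end Pool.Agent.MP_3a00c0_gt
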