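import Pool.Agent.MP_3a00c0_gt.Jac

/-! Normal coordinate neighbourhoods with uniform estimates; geodesic rays. -/

open Set Metric Filter Topology
open scoped ContDiff RealInnerProductSpace

set_option maxSynthPendingDepth 3
set_option linter.unusedSectionVars false

namespace Pool.Agent.MP_3a00c0_gt

open Pool.Agent.MP_3fed84_gt

variable {E : Type} [NormedAddCommGroup E] [InnerProductSpace ℝ E] [FiniteDimensional ℝ E]
  {M : Type} [TopologicalSpace M] {𝒜 : Atlas E M}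

/-- X is the exponential map of the chart c near 0, with uniform estimates. -/
structure Nice (c : Chart E M) (δ ε : ℝ) (X : E × E → E) : Prop where
  εpos : 0 < ε
  εle : ε ≤ δ
  δle : δ ≤ 1
  sm : ContDiffOn ℝ ∞ X (ball 0 δ ×ˢ ball 0 δ)
  zero : ∀ q ∈ ball (0 : E) δ, X (q, 0) = q
  vel : ∀ q ∈ ball (0 : E) δ, ∀ w, fderiv ℝ X (q, 0) (0, w) = w
  geo : ∀ q ∈ ball (0 : E) δ, ∀ (w : E) (t : ℝ), t • w ∈ ball (0 : E) δ →
    CGeo c.Γ (fun s : ℝ => X (q, s • w)) (fun s : ℝ => fderiv ℝ X (q, s • w) (0, w)) t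
  close : ∀ q ∈ ball (0 : E) δ, ∀ w ∈ ball (0 : E) δ, ∀ ξ,
    ‖fderiv ℝ X (q, w) (0, ξ) - ξ‖ ≤ (1 / 100) * ‖ξ‖
  near : ∀ q ∈ ball (0 : E) δ, ∀ w ∈ ball (0 : E) δ, ‖X (q, w) - q - w‖ ≤ (1 / 100) * ‖w‖
  log : ∀ a ∈ ball (0 : E) ε, ∀ b ∈ ball (0 : E) ε, ∃ w ∈ ball (0 : E) δ, X (b, w) = a
  mem : ∀ y ∈ ball (0 : E) (3 * δ), y ∈ c.ψ.target
  met : ∀ y ∈ ball (0 : E) (3 * δ), ∀ a b, |c.G y a b - ⟪a, b⟫| ≤ (1 / 100) * (‖a‖ * ‖b‖)
  curv : ∀ y ∈ ball (0 : E) (3 * δ), ∀ u b, ‖u‖ ≤ 2 * δ →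
    c.G y (Rm c.Γ y b u u) b ≤ (1 / 4) * c.G y b b

theorem nice_cgeo_vel {Γ : E → E →L[ℝ] E →L[ℝ] E} {y u u' : ℝ → E} {t : ℝ} (h : CGeo Γ y u t)
    (h' : ∀ᶠ s in 𝓝 t, HasDerivAt y (u' s) s) : CGeo Γ y u' t := by
  have e : u =ᶠ[𝓝 t] u' := by
    filter_upwards [h, h'] with s h1 h2 using h1.1.unique h2
  filter_upwards [h, h', e.eventuallyEq_nhds] with s h1 h2 h3
  refine ⟨h2, ?_⟩
  rw [← h3.eq_of_nhds]
  exact h1.2.congr_of_eventuallyEq h3.symm

theorem nice_cgeo_scale {Γ : E → E →L[ℝ] E →L[ℝ] E} {y u : ℝ → E} {a t : ℝ}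
    (h : CGeo Γ y u (a * t)) : CGeo Γ (fun s => y (a * s)) (fun s => a • u (a * s)) t := by
  have hl : ∀ s : ℝ, HasDerivAt (fun s => a * s) a s := fun s => by
    simpa using (hasDerivAt_id s).const_mul a
  have ht := (hl t).continuousAt.tendsto
  filter_upwards [ht.eventually h] with s hs
  refine ⟨hs.1.scomp s (hl s), ?_⟩
  have := (hs.2.scomp s (hl s)).const_smul a
  simp only [map_smul, _root_.smul_apply]
  simp only [smul_neg] at this
  exact this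

theorem nice_cda {δ : ℝ} {X : E × E → E} (h : ContDiffOn ℝ ∞ X (ball 0 δ ×ˢ ball 0 δ)) {q w : E}
    (hq : q ∈ ball (0 : E) δ) (hw : w ∈ ball (0 : E) δ) : ContDiffAt ℝ ∞ X (q, w) :=
  h.contDiffAt ((isOpen_ball.prod isOpen_ball).mem_nhds ⟨hq, hw⟩)

theorem nice_partial {X : E × E → E} {q w : E} (h : ContDiffAt ℝ ∞ X (q, w)) :
    HasFDerivAt (fun v => X (q, v))
      ((fderiv ℝ X (q, w)).comp (ContinuousLinearMap.inr ℝ E E)) w :=
  (cda_hasF h).comp w (hasFDerivAt_prodMk_right q w)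

theorem nice_ray_deriv {X : E × E → E} {q w : E} {t : ℝ} (h : ContDiffAt ℝ ∞ X (q, t • w)) :
    HasDerivAt (fun s : ℝ => X (q, s • w)) (fderiv ℝ X (q, t • w) (0, w)) t :=
  HasFDerivAt.comp_hasDerivAt (l := fun v => X (q, v)) t (nice_partial h) (hasDerivAt_line w t)

theorem nice_ev_ball {δ : ℝ} {w : E} {t : ℝ} (ht : t • w ∈ ball (0 : E) δ) :
    ∀ᶠ s in 𝓝 t, s • w ∈ ball (0 : E) δ :=
  (hasDerivAt_line w t).continuousAt.eventually (isOpen_ball.mem_nhds ht)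

/- exists_exp, exists_log, continuity of fderiv X, G and Rm at 0; shrink δ.  For geo with an
arbitrary w rescale (w' = t • w if t ≠ 0, w' = small multiple of w if t = 0) and identify the
velocity by the chain rule; near follows from close by the mean value inequality. -/
theorem exists_nice {c : Chart E M} {m : M} (hn : c.NormAt m) {δ₀ : ℝ} (hδ₀ : 0 < δ₀) :
    ∃ δ ε X, δ ≤ δ₀ ∧ Nice c δ ε X := by
  have h0U : (0 : E) ∈ c.ψ.target := hn.2.1 ▸ c.ψ.map_source hn.1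
  have hnU := c.ψ.open_target.mem_nhds h0U
  obtain ⟨δ₁, hδ₁, X, hX, hX'⟩ := exists_exp c.chr h0U
  have hvel : ∀ q ∈ ball (0 : E) δ₁,
      (fderiv ℝ X (q, 0)).comp (ContinuousLinearMap.inr ℝ E E) = ContinuousLinearMap.id ℝ E :=
    fun q hq => (nice_partial (nice_cda hX hq (mem_ball_self hδ₁))).unique (hX' q hq).2.1
  have hF : ContinuousAt (fun p : E × E =>
      (fderiv ℝ X p).comp (ContinuousLinearMap.inr ℝ E E)) (0, 0) :=
    ((cda_fderiv (nice_cda hX (mem_ball_self hδ₁) (mem_ball_self hδ₁))).clm_comp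
      contDiffAt_const).continuousAt
  have ev1 := hF.eventually (ball_mem_nhds _ (show (0 : ℝ) < 1 / 100 by norm_num))
  obtain ⟨r₁, hr₁, h1⟩ := nhds_basis_ball.eventually_iff.1 ev1
  have hG := (c.chr.smG.continuousOn.continuousAt hnU).eventually
    (ball_mem_nhds _ (show (0 : ℝ) < 1 / 100 by norm_num))
  have hR := ((rm_smooth c.chr).continuousOn.continuousAt hnU).eventually
    (ball_mem_nhds _ (show (0 : ℝ) < 1 by norm_num))
  obtain ⟨r₂, hr₂, h2⟩ := nhds_basis_ball.eventually_iff.1 (hG.and (hR.and hnU))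
  set K : ℝ := ‖Rm c.Γ 0‖ + 1 with hK
  have hK0 : 0 < K := by positivity
  obtain ⟨δ, hδ, d0, d1, d2, d3, d4, d5⟩ : ∃ δ > 0, δ ≤ δ₀ ∧ δ ≤ δ₁ ∧ δ ≤ 1 ∧ δ ≤ r₁ ∧
      3 * δ ≤ r₂ ∧ K * δ ≤ 1 / 20 := by
    refine ⟨min (min (min δ₀ δ₁) (min 1 r₁)) (min (r₂ / 3) (1 / 20 / K)), by positivity,
      ?_, ?_, ?_, ?_, ?_, ?_⟩
    · exact (min_le_left _ _).trans ((min_le_left _ _).trans (min_le_left _ _))
    · exact (min_le_left _ _).trans ((min_le_left _ _).trans (min_le_right _ _))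
    · exact (min_le_left _ _).trans ((min_le_right _ _).trans (min_le_left _ _))
    · exact (min_le_left _ _).trans ((min_le_right _ _).trans (min_le_right _ _))
    · have := (min_le_right (min (min δ₀ δ₁) (min 1 r₁)) _).trans
        (min_le_left (r₂ / 3) (1 / 20 / K))
      linarith
    · rw [mul_comm, ← le_div_iff₀ hK0]
      exact (min_le_right _ _).trans (min_le_right _ _)
  have sub : ball (0 : E) δ ⊆ ball 0 δ₁ := ball_subset_ball d1
  have hXδ : ContDiffOn ℝ ∞ X (ball 0 δ ×ˢ ball 0 δ) := hX.mono (prod_mono sub sub)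
  obtain ⟨T, hT, hT0, -⟩ := exists_log hδ hXδ (fun w hw => (hX' w (sub hw)).1)
    (hX' 0 (mem_ball_self hδ₁)).2.1
  have hX00 : X (0, 0) = 0 := (hX' 0 (mem_ball_self hδ₁)).1
  have hT00 : T (0, 0) = (0, 0) := by rw [hT, hX00]
  have hT0' : ((0 : E), (0 : E)) ∈ T.target := hT00 ▸ T.map_source hT0
  have hS00 : T.symm (0, 0) = (0, 0) := by rw [← hT00, T.left_inv hT0, hT00]
  have ev2 : ∀ᶠ q in 𝓝 ((0 : E), (0 : E)), q ∈ T.target ∧ (T.symm q).2 ∈ ball (0 : E) δ := by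
    refine Filter.Eventually.and (T.open_target.mem_nhds hT0')
      ((T.continuousAt_symm hT0').snd.eventually_mem ?_)
    rw [hS00]; exact ball_mem_nhds _ hδ
  obtain ⟨ε₂, hε₂, h3⟩ := nhds_basis_ball.eventually_iff.1 ev2
  rw [← ball_prod_same] at h1 h3
  have hclose : ∀ q ∈ ball (0 : E) δ, ∀ w ∈ ball (0 : E) δ,
      ‖(fderiv ℝ X (q, w)).comp (ContinuousLinearMap.inr ℝ E E) - ContinuousLinearMap.id ℝ E‖
        ≤ 1 / 100 := by
    intro q hq w hw
    have := h1 (show (q, w) ∈ _ from ⟨ball_subset_ball d3 hq, ball_subset_ball d3 hw⟩)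
    simp only [dist_eq_norm, hvel 0 (mem_ball_self hδ₁)] at this
    exact this.le
  have hmet : ∀ y ∈ ball (0 : E) (3 * δ), ∀ a b,
      |c.G y a b - ⟪a, b⟫| ≤ (1 / 100) * (‖a‖ * ‖b‖) := by
    intro y hy a b
    have k1 := (h2 (ball_subset_ball d4 hy)).1
    rw [dist_eq_norm] at k1
    have k2 := (c.G y - c.G 0).le_of_opNorm₂_le_of_le k1.le (le_refl ‖a‖) (le_refl ‖b‖)
    simp only [_root_.sub_apply, hn.2.2, Real.norm_eq_abs] at k2
    rwa [mul_assoc] at k2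
  refine ⟨δ, min ε₂ δ, X, d0, lt_min hε₂ hδ, min_le_right _ _, d2, hXδ,
    fun q hq => (hX' q (sub hq)).1, fun q hq w => ?_, fun q hq w t ht => ?_,
    fun q hq w hw ξ => ?_, fun q hq w hw => ?_, fun a ha b hb => ?_,
    fun y hy => (h2 (ball_subset_ball d4 hy)).2.2, hmet, fun y hy u b hu => ?_⟩
  · exact congrArg (fun L : E →L[ℝ] E => L w) (hvel q (sub hq))
  · obtain ⟨a, ha, haw⟩ : ∃ a : ℝ, 0 < a ∧ a • w ∈ ball (0 : E) δ₁ := by
      have := (nice_ev_ball (w := w) (t := 0) (δ := δ₁)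
        (by rw [zero_smul]; exact mem_ball_self hδ₁)).filter_mono
          (nhdsWithin_le_nhds (s := Ioi (0 : ℝ)))
      obtain ⟨a, k1, k2⟩ := (this.and self_mem_nhdsWithin).exists
      exact ⟨a, k2, k1⟩
    have e : ∀ s : ℝ, (a⁻¹ * s) • a • w = s • w := fun s => by
      rw [smul_smul]; congr 1; field_simp
    obtain ⟨u, hu⟩ := ((hX' q (sub hq)).2.2 _ haw).2 (a⁻¹ * t) (by rw [e]; exact sub ht)
    have k := nice_cgeo_scale hu
    simp only [e] at k
    refine nice_cgeo_vel k ?_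
    filter_upwards [nice_ev_ball ht] with s hs
    exact nice_ray_deriv (nice_cda hXδ hq hs)
  · exact ((fderiv ℝ X (q, w)).comp (ContinuousLinearMap.inr ℝ E E)
      - ContinuousLinearMap.id ℝ E).le_of_opNorm_le (hclose q hq w hw) ξ
  · have k := (convex_ball (0 : E) δ).norm_image_sub_le_of_norm_hasFDerivWithin_le
      (f := fun v => X (q, v) - v)
      (f' := fun v => (fderiv ℝ X (q, v)).comp (ContinuousLinearMap.inr ℝ E E)
        - ContinuousLinearMap.id ℝ E)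
      (fun v hv => ((nice_partial (nice_cda hXδ hq hv)).sub (hasFDerivAt_id v)).hasFDerivWithinAt)
      (fun v hv => hclose q hq v hv) (mem_ball_self hδ) hw
    simp only [(hX' q (sub hq)).1, sub_zero] at k
    rwa [sub_right_comm]
  · obtain ⟨q1, q2⟩ := h3 (show (b, a) ∈ _ from
      ⟨ball_subset_ball (min_le_left _ _) hb, ball_subset_ball (min_le_left _ _) ha⟩)
    refine ⟨_, q2, ?_⟩
    have a1 := T.right_inv q1
    rw [hT] at a1
    have a2 : (T.symm (b, a)).1 = b := congrArg Prod.fst a1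
    have a3 : X (T.symm (b, a)) = a := congrArg Prod.snd a1
    have a4 : (b, (T.symm (b, a)).2) = T.symm (b, a) := Prod.ext a2.symm rfl
    rw [a4, a3]
  · have k1 := (h2 (ball_subset_ball d4 hy)).2.1
    rw [dist_eq_norm] at k1
    have k2 : ‖Rm c.Γ y‖ ≤ K := by
      have := norm_sub_norm_le (Rm c.Γ y) (Rm c.Γ 0)
      linarith
    have k3 : ‖Rm c.Γ y b u u‖ ≤ K * ‖b‖ * (2 * δ) * (2 * δ) :=
      (Rm c.Γ y b u).le_of_opNorm_le_of_le
        ((Rm c.Γ y).le_of_opNorm₂_le_of_le k2 (le_refl ‖b‖) hu) hu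
    have hb := norm_nonneg b
    have k4 : ‖Rm c.Γ y b u u‖ ≤ (1 / 5) * ‖b‖ := by
      have g1 : K * δ * δ ≤ 1 / 20 := by nlinarith
      have g2 : K * δ * δ * ‖b‖ ≤ 1 / 20 * ‖b‖ := mul_le_mul_of_nonneg_right g1 hb
      nlinarith
    have k5 := (abs_le.1 (hmet y hy (Rm c.Γ y b u u) b)).2
    have k6 := (abs_le.1 (hmet y hy b b)).1
    have k7 := real_inner_le_norm (Rm c.Γ y b u u) b
    rw [real_inner_self_eq_norm_sq] at k6
    have k8 : ‖Rm c.Γ y b u u‖ * ‖b‖ ≤ (1 / 5) * ‖b‖ * ‖b‖ := mul_le_mul_of_nonneg_right k4 hb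
    nlinarith

variable {c : Chart E M} {δ ε : ℝ} {X : E × E → E}

theorem Nice.δpos (h : Nice c δ ε X) : 0 < δ := h.εpos.trans_le h.εle

theorem Nice.mem_ball (h : Nice c δ ε X) {q w : E} (hq : q ∈ ball (0 : E) δ)
    (hw : w ∈ ball (0 : E) δ) : X (q, w) ∈ ball (0 : E) (3 * δ) := by
  have k := h.near q hq w hw
  rw [mem_ball_zero_iff] at hq hw ⊢
  have e : X (q, w) = (X (q, w) - q - w) + q + w := by abel
  have k1 := norm_add₃_le (a := X (q, w) - q - w) (b := q) (c := w)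
  rw [← e] at k1
  have := norm_nonneg w
  linarith

/- The partial derivative in w is within 1/100 of id, hence invertible;
HasStrictFDerivAt.map_nhds_eq_of_equiv. -/
theorem Nice.map_nhds (h : Nice c δ ε X) {q w : E} (hq : q ∈ ball (0 : E) δ)
    (hw : w ∈ ball (0 : E) δ) : map (fun v => X (q, v)) (𝓝 w) = 𝓝 (X (q, w)) := by
  have hc := nice_cda h.sm hq hw
  have h1 : ContDiffAt ℝ ∞ (fun v => X (q, v)) w :=
    hc.comp w (contDiffAt_const.prodMk contDiffAt_id)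
  have h2 := h1.hasStrictFDerivAt' (nice_partial hc) (by simp)
  refine h2.map_nhds_eq_of_surj ?_
  rw [LinearMap.range_eq_top]
  refine LinearMap.injective_iff_surjective.1 ?_
  rw [injective_iff_map_eq_zero]
  intro ξ hξ
  have h3 : fderiv ℝ X (q, w) (0, ξ) = 0 := hξ
  have h4 := h.close q hq w hw ξ
  rw [h3, zero_sub, norm_neg] at h4
  have := norm_nonneg ξ
  exact norm_eq_zero.1 (by linarith)

theorem Nice.geoAt (h : Nice c δ ε X) (hc : c ∈ 𝒜.S) {q : E} (hq : q ∈ ball (0 : E) δ) (w : E)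
    {t : ℝ} (ht : t • w ∈ ball (0 : E) δ) :
    GeoAt 𝒜 (fun s : ℝ => c.ψ.symm (X (q, s • w))) t := by
  exact GeoAt.of_coord hc (h.geo q hq w t ht) (h.mem _ (h.mem_ball hq ht))

theorem nice_vel_zero (h : Nice c δ ε X) {q : E} (hq : q ∈ ball (0 : E) δ) (w : E) :
    HasDerivAt (c.ψ ∘ fun s : ℝ => c.ψ.symm (X (q, s • w))) w 0 := by
  have h0 : (0 : ℝ) • w ∈ ball (0 : E) δ := by rw [zero_smul]; exact mem_ball_self h.δpos
  have k := nice_ray_deriv (nice_cda h.sm hq h0)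
  rw [zero_smul, h.vel q hq] at k
  refine k.congr_of_eventuallyEq ?_
  filter_upwards [nice_ev_ball h0] with s hs
  exact c.ψ.right_inv (h.mem _ (h.mem_ball hq hs))

/- Both sides are geodesics in t on the interval between t₀ and t with the same position and
velocity at t₀ (GeoAt.unique_nhds, GeoAt.unique, GeoAt.affine). -/
theorem Nice.ray_eq [T2Space M] (h : Nice c δ ε X) (hc : c ∈ 𝒜.S) {γ : ℝ → M} {t₀ t : ℝ} {u : E}
    (hγ : ∀ s ∈ uIcc t₀ t, GeoAt 𝒜 γ s) (h0 : γ t₀ ∈ c.ψ.source)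
    (hq : c.ψ (γ t₀) ∈ ball (0 : E) δ) (hu : HasDerivAt (c.ψ ∘ γ) u t₀)
    (ht : (t - t₀) • u ∈ ball (0 : E) δ) :
    γ t = c.ψ.symm (X (c.ψ (γ t₀), (t - t₀) • u)) := by
  have hg : ∀ s ∈ uIcc t₀ t, GeoAt 𝒜 (fun r : ℝ => c.ψ.symm (X (c.ψ (γ t₀), (r - t₀) • u))) s := by
    intro s hs
    have k : (1 * s + -t₀) • u ∈ ball (0 : E) δ := by
      rw [mem_ball_zero_iff, norm_smul, Real.norm_eq_abs] at ht ⊢
      refine lt_of_le_of_lt (mul_le_mul_of_nonneg_right ?_ (norm_nonneg u)) ht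
      rw [one_mul, ← sub_eq_add_neg]
      exact abs_sub_left_of_mem_uIcc hs
    have := (h.geoAt hc hq u k).affine
    simpa only [one_mul, ← sub_eq_add_neg] using this
  have hv : HasDerivAt (c.ψ ∘ fun r : ℝ => c.ψ.symm (X (c.ψ (γ t₀), (r - t₀) • u))) u t₀ := by
    have k := nice_vel_zero h hq u
    rw [← sub_self t₀] at k
    exact k.comp_sub_const t₀ t₀
  have e := (hγ t₀ left_mem_uIcc).unique_nhds (hg t₀ left_mem_uIcc) hc h0
    (by rw [sub_self, zero_smul, h.zero _ hq, c.ψ.left_inv h0]) hu hv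
  exact (GeoAt.unique isPreconnected_uIcc hγ hg left_mem_uIcc e t right_mem_uIcc).eq_of_nhds

/- The Jacobi field of the variation of the ray s ↦ X (q, s w) in the direction (a, b):
jacAt_of_family for Z (s, (q, w)) = (X (q, s w), fderiv X (q, s w) (0, w)). -/
theorem Nice.jacobi (h : Nice c δ ε X) : ∃ J J₁ : ℝ × (E × E) × (E × E) → E,
    (∀ s q w a b, q ∈ ball (0 : E) δ → s • w ∈ ball (0 : E) δ →
      ContinuousAt J (s, (q, w), (a, b)) ∧ ContinuousAt J₁ (s, (q, w), (a, b)) ∧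
      J (s, (q, w), (a, b)) = fderiv ℝ X (q, s • w) (a, s • b) ∧
      JacAt c.Γ (fun r : ℝ => X (q, r • w)) (fun r : ℝ => fderiv ℝ X (q, r • w) (0, w))
        (fun r => J (r, (q, w), (a, b))) (fun r => J₁ (r, (q, w), (a, b))) s) ∧
    ∀ q w a b, q ∈ ball (0 : E) δ →
      J (0, (q, w), (a, b)) = a ∧ J₁ (0, (q, w), (a, b)) = b + c.Γ q w a := by
  let μ : ℝ × (E × E) → E × E := fun p => (p.2.1, p.1 • p.2.2)
  let Z : ℝ × (E × E) → E × E := fun p => (X (μ p), fderiv ℝ X (μ p) (0, p.2.2))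
  have hμ : ContDiff ℝ ∞ μ := contDiff_snd.fst.prodMk (contDiff_fst.smul contDiff_snd.snd)
  have hZ : ∀ s q w, q ∈ ball (0 : E) δ → s • w ∈ ball (0 : E) δ →
      ContDiffAt ℝ ∞ Z (s, (q, w)) := by
    intro s q w hq hs
    have k := nice_cda h.sm hq hs
    exact (ContDiffAt.comp (g := X) (f := μ) _ k hμ.contDiffAt).prodMk
      ((ContDiffAt.comp (g := fderiv ℝ X) (f := μ) _ (cda_fderiv k) hμ.contDiffAt).clm_apply
        (contDiffAt_const.prodMk contDiffAt_snd.snd))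
  refine ⟨fun x => (fderiv ℝ Z (x.1, x.2.1) (0, x.2.2)).1,
    fun x => (fderiv ℝ Z (x.1, x.2.1) (0, x.2.2)).2
      + c.Γ (Z (x.1, x.2.1)).1 (Z (x.1, x.2.1)).2 (fderiv ℝ Z (x.1, x.2.1) (0, x.2.2)).1,
    fun s q w a b hq hs => ?_, fun q w a b hq => ?_⟩
  · have k := hZ s q w hq hs
    have hU : (Z (s, (q, w))).1 ∈ c.ψ.target := h.mem _ (h.mem_ball hq hs)
    have hπ : ContinuousAt (fun x : ℝ × (E × E) × (E × E) => (x.1, x.2.1)) (s, (q, w), (a, b)) := by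
      fun_prop
    have c1 : ContinuousAt (fun x : ℝ × (E × E) × (E × E) => Z (x.1, x.2.1)) (s, (q, w), (a, b)) :=
      ContinuousAt.comp (g := Z) k.continuousAt hπ
    have c2 : ContinuousAt (fun x : ℝ × (E × E) × (E × E) => fderiv ℝ Z (x.1, x.2.1) (0, x.2.2))
        (s, (q, w), (a, b)) :=
      (ContinuousAt.comp (g := fderiv ℝ Z) (f := fun x : ℝ × (E × E) × (E × E) => (x.1, x.2.1))
        (x := (s, (q, w), (a, b))) (cda_fderiv k).continuousAt hπ).clm_apply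
        (continuousAt_const.prodMk continuousAt_snd.snd)
    have c3 : ContinuousAt (fun x : ℝ × (E × E) × (E × E) => c.Γ (Z (x.1, x.2.1)).1)
        (s, (q, w), (a, b)) :=
      ContinuousAt.comp (g := c.Γ)
        (c.chr.smΓ.continuousOn.continuousAt (c.chr.opn.mem_nhds hU)) c1.fst
    refine ⟨c2.fst, c2.snd.add ((c3.clm_apply c1.snd).clm_apply c2.fst), ?_, ?_⟩
    · have d1 : HasDerivAt (fun r : ℝ => (s, ((q, w) + r • (a, b) : E × E)))
          ((0 : ℝ), (a, b)) 0 :=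
        (hasDerivAt_const _ s).prodMk ((hasDerivAt_line (a, b) 0).const_add (q, w))
      have d2 : HasDerivAt (fun r : ℝ => Z (s, ((q, w) + r • (a, b) : E × E)))
          (fderiv ℝ Z (s, (q, w)) ((0 : ℝ), (a, b))) 0 :=
        HasFDerivAt.comp_hasDerivAt_of_eq (l := Z) 0 (cda_hasF k) d1 (by simp)
      have d3 : HasDerivAt (fun r : ℝ => ((q, s • w) + r • (a, s • b) : E × E)) (a, s • b) 0 :=
        (hasDerivAt_line (a, s • b) 0).const_add (q, s • w)
      have d4 : HasDerivAt (fun r : ℝ => X ((q, s • w) + r • (a, s • b)))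
          (fderiv ℝ X (q, s • w) (a, s • b)) 0 :=
        HasFDerivAt.comp_hasDerivAt_of_eq (l := X) 0 (cda_hasF (nice_cda h.sm hq hs)) d3 (by simp)
      have d5 := (ContinuousLinearMap.fst ℝ E E).hasFDerivAt.comp_hasDerivAt 0 d2
      refine d5.unique (d4.congr_of_eventuallyEq (Eventually.of_forall fun r => ?_))
      simp only [Function.comp, Z, μ, ContinuousLinearMap.coe_fst', Prod.smul_mk, Prod.mk_add_mk,
        smul_add, smul_comm s r b]
    · refine jacAt_of_family c.chr k hU ?_ (a, b)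
      have ev : ∀ᶠ p in 𝓝 (s, (q, w)), μ p ∈ ball (0 : E) δ ×ˢ ball (0 : E) δ :=
        hμ.continuous.continuousAt.eventually
          ((isOpen_ball.prod isOpen_ball).mem_nhds ⟨hq, hs⟩)
      filter_upwards [ev] with p hp
      obtain ⟨s', q', w'⟩ := p
      have d1 : HasDerivAt (fun r : ℝ => (r, (q', w'))) ((1 : ℝ), (0 : E × E)) s' :=
        (hasDerivAt_id s').prodMk (hasDerivAt_const s' (q', w'))
      have d2 : HasDerivAt (fun r : ℝ => Z (r, (q', w')))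
          (fderiv ℝ Z (s', (q', w')) ((1 : ℝ), (0 : E × E))) s' :=
        HasFDerivAt.comp_hasDerivAt (l := Z) s' (cda_hasF (hZ s' q' w' hp.1 hp.2)) d1
      have d3 := (h.geo q' hp.1 w' s' hp.2).self_of_nhds
      exact d2.unique (d3.1.prodMk d3.2)
  · have h0 : (0 : ℝ) • w ∈ ball (0 : E) δ := by rw [zero_smul]; exact mem_ball_self h.δpos
    have k := hZ 0 q w hq h0
    have e0 : ∀ p : E × E, p.1 ∈ ball (0 : E) δ → Z (0, p) = p := by
      intro p hp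
      simp only [Z, μ, zero_smul, h.zero _ hp, h.vel _ hp]
    have d1 : HasFDerivAt (fun p : E × E => Z (0, p))
        ((fderiv ℝ Z (0, (q, w))).comp (ContinuousLinearMap.inr ℝ ℝ (E × E))) (q, w) :=
      (cda_hasF k).comp (q, w) (hasFDerivAt_prodMk_right (0 : ℝ) (q, w))
    have d2 : HasFDerivAt (fun p : E × E => Z (0, p)) (ContinuousLinearMap.id ℝ (E × E)) (q, w) := by
      refine (hasFDerivAt_id (q, w)).congr_of_eventuallyEq ?_
      filter_upwards [continuousAt_fst.eventually (isOpen_ball.mem_nhds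
        (show ((q, w) : E × E).1 ∈ ball (0 : E) δ from hq))] with p hp using e0 p hp
    have d3 : fderiv ℝ Z (0, (q, w)) (0, (a, b)) = (a, b) :=
      congrArg (fun L : E × E →L[ℝ] E × E => L (a, b)) (d1.unique d2)
    simp only [d3, e0 (q, w) hq, and_self]

/-- z is the endpoint of the geodesic from m whose initial velocity is w in the chart c. -/
def Ray (𝒜 : Atlas E M) (c : Chart E M) (m : M) (w : E) (z : M) : Prop :=
  m ∈ c.ψ.source ∧ ∃ γ : ℝ → M, (∀ t ∈ Icc (0 : ℝ) 1, GeoAt 𝒜 γ t) ∧ γ 0 = m ∧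
    HasDerivAt (c.ψ ∘ γ) w 0 ∧ γ 1 = z

theorem Nice.ray_iff [T2Space M] (h : Nice c δ ε X) (hc : c ∈ 𝒜.S) {m : M}
    (hm : m ∈ c.ψ.source) (hq : c.ψ m ∈ ball (0 : E) δ) {w : E} (hw : w ∈ ball (0 : E) δ)
    (z : M) : Ray 𝒜 c m w z ↔ z = c.ψ.symm (X (c.ψ m, w)) := by
  constructor
  · rintro ⟨-, γ, h1, rfl, h3, rfl⟩
    have := h.ray_eq hc (γ := γ) (t₀ := 0) (t := 1) (u := w)
      (by rwa [uIcc_of_le zero_le_one]) hm hq h3 (by rwa [sub_zero, one_smul])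
    rwa [sub_zero, one_smul] at this
  · rintro rfl
    refine ⟨hm, fun s : ℝ => c.ψ.symm (X (c.ψ m, s • w)), fun t ht => h.geoAt hc hq w ?_, ?_,
      nice_vel_zero h hq w, ?_⟩
    · exact (convex_ball (0 : E) δ).smul_mem_of_zero_mem (mem_ball_self h.δpos) hw ht
    · simp only [zero_smul, h.zero _ hq, c.ψ.left_inv hm]
    · simp only [one_smul]

theorem vel_change {c' : Chart E M} (hc : c ∈ 𝒜.S) (hc' : c' ∈ 𝒜.S) {γ : ℝ → M} {t : ℝ} {w : E}
    (hγ : ContinuousAt γ t) (h1 : γ t ∈ c.ψ.source) (h2 : γ t ∈ c'.ψ.source)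
    (hw : HasDerivAt (c.ψ ∘ γ) w t) :
    HasDerivAt (c'.ψ ∘ γ) (fderiv ℝ (c.ex c' id) (c.ψ (γ t)) w) t := by
  have k := (𝒜.compat c hc c' hc' _ h1 h2).1
  refine ((cda_hasF k).comp_hasDerivAt t hw).congr_of_eventuallyEq ?_
  filter_upwards [hγ.eventually (c.ψ.open_source.mem_nhds h1)] with s hs
  exact (c.ex_apply c' id hs).symm

theorem Ray.change {c' : Chart E M} (hc : c ∈ 𝒜.S) (hc' : c' ∈ 𝒜.S) {m z : M} {w : E}
    (h : Ray 𝒜 c m w z) (hm : m ∈ c'.ψ.source) :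
    Ray 𝒜 c' m (fderiv ℝ (c.ex c' id) (c.ψ m) w) z := by
  obtain ⟨h0, γ, h1, rfl, h3, h4⟩ := h
  exact ⟨hm, γ, h1, rfl,
    vel_change hc hc' (h1 0 (left_mem_Icc.2 zero_le_one)).continuousAt h0 hm h3, h4⟩

/- Compose the two transition maps (LocIso.comp, or injectivity of an isometry together with
vel_change in both directions). -/
theorem Ray.of_change {c' : Chart E M} (hc : c ∈ 𝒜.S) (hc' : c' ∈ 𝒜.S) {m z : M} {w : E}
    (hm : m ∈ c.ψ.source) (h : Ray 𝒜 c' m (fderiv ℝ (c.ex c' id) (c.ψ m) w) z) :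
    Ray 𝒜 c m w z := by
  obtain ⟨h0, γ, h1, rfl, h3, h4⟩ := h
  have hg := h1 0 (left_mem_Icc.2 zero_le_one)
  obtain ⟨u, hu⟩ := hg.chart hc hm
  have k1 := hu.self_of_nhds.1
  have k2 := (vel_change hc hc' hg.continuousAt hm h0 k1).unique h3
  have k3 := (𝒜.compat c hc c' hc' _ hm h0).2 (u 0 - w) (u 0 - w)
  rw [map_sub, k2, sub_self, map_zero] at k3
  have k4 : u 0 - w = 0 := eq_zero_of_pos (c.chr.pos _ (c.ψ.map_source hm)) k3.symm
  rw [sub_eq_zero] at k4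
  exact ⟨hm, γ, h1, rfl, k4 ▸ k1, h4⟩

/-- γ has speed at most one at time t. -/
def SlowAt (𝒜 : Atlas E M) (γ : ℝ → M) (t : ℝ) : Prop :=
  ∀ c ∈ 𝒜.S, γ t ∈ c.ψ.source → ∃ v, HasDerivAt (c.ψ ∘ γ) v t ∧ c.G (c.ψ (γ t)) v v ≤ 1

theorem slowAt_of_unit {γ : ℝ → M} {t : ℝ} (h : UnitAt 𝒜 γ t) : SlowAt 𝒜 γ t := fun c hc ht =>
  (h c hc ht).imp fun _ hv => ⟨hv.1, hv.2.le⟩

theorem slowAt_of_coord (hc : c ∈ 𝒜.S) {y : ℝ → E} {v : E} {t : ℝ}
    (hy : HasDerivAt y v t) (ht : y t ∈ c.ψ.target) (hv : c.G (y t) v v ≤ 1) :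
    SlowAt 𝒜 (c.ψ.symm ∘ y) t := by
  intro c' hc' h'
  have h1 := 𝒜.compat c hc c' hc' _ (c.ψ.map_target ht) h'
  rw [LocIso, c.ψ.right_inv ht] at h1
  refine ⟨_, (h1.1.differentiableAt (by simp)).hasFDerivAt.comp_hasDerivAt t hy, ?_⟩
  exact (h1.2 v v).trans_le hv

end Pool.Agent.MP_3a00c0_gt
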